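import Pool.Agent.H68.QT.Targets
import Pool.Agent.H33.QC.BS0

/-!
# Level zero of the table lemma for towers of quantum algorithms
-/

set_option autoImplicit false

namespace Pool.Agent.H1.QT

open Finset Pool.Agent.H6.NB Pool.Agent.H70.OQ Pool.Agent.H70.RK Pool.Agent.H68.QC
  Pool.Agent.H68.QT

/-- BT0 -/
theorem pf_BT0 : T_BT0 := by
  classical
  intro X Y _ _ _ m t m0 T V1 V0 hT hm0 hTw hBad
  obtain ⟨A, tr, hAs, hAT, htr, he1, he0⟩ := hTw
  obtain ⟨h1, h0⟩ := hBad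
  simp only [if_true] at h0
  have hn : ∀ P : (X → Bool) → Prop, m0 < {x : X | P fun x' => !decide (x' = x)}.ncard →
      m0 < (univ.filter fun x : X => P fun x' => !decide (x' = x)).card := by
    intro P h
    rwa [Set.ncard_eq_toFinset_card', Set.toFinset_ofPred] at h
  obtain ⟨x1, hx1, hd1⟩ := Pool.Agent.H33.QC.near (X := X) A tr t m0 T htr hAT hm0 _ (hn V1 h1)
  obtain ⟨x0, hx0, hd0⟩ := Pool.Agent.H33.QC.near (X := X) A tr t m0 T htr hAT hm0 _ (hn V0 h0)
  have g1 : 2 / 3 ≤ A.prob fun w => (tr w).eval fun x' => !decide (x' = x1) :=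
    (he1 _).1 (Finset.mem_filter.mp hx1).2
  have g0 : (A.prob fun w => (tr w).eval fun x' => !decide (x' = x0)) ≤ 1 / 3 :=
    (he0 _).1 (Finset.mem_filter.mp hx0).2
  have l1 := (abs_lt.mp hd1).2
  have l0 := (abs_lt.mp hd0).1
  linarith

end Pool.Agent.H1.QT
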